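import Mathlib
import Pool.Agent.H12.Gammoid

set_option autoImplicit false

namespace Pool.Agent.Results.MP_1bde1f_co.Dense

open Finset Pool.Agent.H12.Gammoid

/-- A gammoid on `E`: its independent sets are those of some `Γ(D, T, E)`. -/
def IsGammoid (E : Finset ℕ) (I : Set (Finset ℕ)) : Prop := ∃ A T, Gam A T E = I

/-- The ratios `arcC(M) / |E|` over gammoids with nonempty ground set. -/
def S : Set ℝ := {x | ∃ E I, E.Nonempty ∧ IsGammoid E I ∧ x = (arcC E I : ℝ) / #E}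

theorem routing_map {A : Finset (ℕ × ℕ)} {X T : Finset ℕ} (φ : Equiv.Perm ℕ)
    (hX : ∀ x ∈ X, φ x = x) (hT : ∀ x ∈ T, φ x = x) (h : Routing A X T) :
    Routing (A.image (Prod.map φ φ)) X T := by
  obtain ⟨R, h1, h2, h3⟩ := h
  refine ⟨List.map φ '' R, ?_, ?_, fun x hx => ?_⟩
  · rintro _ ⟨p, hp, rfl⟩
    obtain ⟨⟨a1, a2, a3⟩, t, ht, a4⟩ := h1 p hp
    refine ⟨⟨by simpa using a1, a2.map φ.injective, ?_⟩, t, ht, ?_⟩
    · rw [List.isChain_map]
      exact a3.imp fun a b hab => mem_image.2 ⟨_, hab, rfl⟩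
    · rw [List.getLast?_map, a4, Option.map_some, hT t ht]
  · rintro _ ⟨p, hp, rfl⟩ _ ⟨q, hq, rfl⟩ hne
    exact List.disjoint_map φ.injective (h2 hp hq fun e => hne (by rw [e]))
  · obtain ⟨p, hp, e⟩ := h3 x hx
    exact ⟨_, ⟨p, hp, rfl⟩, by rw [List.head?_map, e, Option.map_some, hX x hx]⟩

theorem gam_map {A : Finset (ℕ × ℕ)} {T E : Finset ℕ} (φ : Equiv.Perm ℕ)
    (hE : ∀ x ∈ E, φ x = x) (hT : T ⊆ E) : Gam (A.image (Prod.map φ φ)) T E = Gam A T E := by
  refine Set.ext fun X => ⟨fun h => ⟨h.1, ?_⟩, fun h => ⟨h.1, routing_map φ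
    (fun x hx => hE x (h.1 hx)) (fun x hx => hE x (hT hx)) h.2⟩⟩
  have hE' : ∀ x ∈ E, φ.symm x = x := fun x hx => by rw [Equiv.symm_apply_eq, hE x hx]
  have h1 := routing_map φ.symm (fun x hx => hE' x (h.1 hx)) (fun x hx => hE' x (hT hx)) h.2
  rwa [image_image, Prod.map_comp_map, Equiv.symm_comp_self, Prod.map_id, image_id] at h1

theorem exists_perm (n k : ℕ) (W : Finset ℕ) (hW : #W ≤ k) :
    ∃ φ : Equiv.Perm ℕ, (∀ x < n, φ x = x) ∧ ∀ x ∈ W, φ x < n + k := by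
  let f : Fin n ⊕ (W.filter (n ≤ ·)) → ℕ := Sum.elim (↑) (↑)
  let g : Fin n ⊕ (W.filter (n ≤ ·)) → ℕ := Sum.elim (↑) fun w => n + (W.filter (n ≤ ·)).equivFin w
  have hf : Function.Injective f := by
    rintro (a | a) (b | b) h
    · exact congrArg _ (Fin.ext h)
    · have h1 : (a : ℕ) = b := h
      have := (mem_filter.1 b.2).2
      omega
    · have h1 : (a : ℕ) = b := h
      have := (mem_filter.1 a.2).2
      omega
    · exact congrArg _ (Subtype.ext h)
  have hg : Function.Injective g := by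
    rintro (a | a) (b | b) h
    · exact congrArg _ (Fin.ext h)
    · have h1 : (a : ℕ) = n + _ := h
      omega
    · have h1 : n + _ = (b : ℕ) := h
      omega
    · have h1 : n + _ = n + _ := h
      exact congrArg _ ((equivFin _).injective (Fin.ext (Nat.add_left_cancel h1)))
  obtain ⟨φ, hφ⟩ := Equiv.Perm.exists_extending_pair f g hf hg
  refine ⟨φ, fun x hx => hφ (.inl ⟨x, hx⟩), fun x hx => ?_⟩
  by_cases h : n ≤ x
  · have h1 : φ x = n + _ := hφ (.inr ⟨x, mem_filter.2 ⟨hx, h⟩⟩)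
    have h2 := ((W.filter (n ≤ ·)).equivFin ⟨x, mem_filter.2 ⟨hx, h⟩⟩).2
    have h3 := card_filter_le W (n ≤ ·)
    omega
  · have h1 : φ x = x := hφ (.inl ⟨x, by omega⟩)
    omega

/-- The arc set listed by `g`. -/
def arcsOf {m : ℕ} (g : Fin m → Option (ℕ × ℕ)) : Finset (ℕ × ℕ) := eraseNone (univ.image g)

theorem small {n m : ℕ} {A : Finset (ℕ × ℕ)} {T : Finset ℕ} (hT : T ⊆ range n) (hA : #A ≤ m) :
    ∃ g ∈ Fintype.piFinset fun _ : Fin m => insertNone (range (n + 2 * m) ×ˢ range (n + 2 * m)),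
      Gam (arcsOf g) T (range n) = Gam A T (range n) := by
  obtain ⟨φ, h1, h2⟩ := exists_perm n (2 * m) (A.image Prod.fst ∪ A.image Prod.snd)
    ((card_union_le _ _).trans (by
      have := card_image_le (s := A) (f := Prod.fst)
      have := card_image_le (s := A) (f := Prod.snd)
      omega))
  set A' := A.image (Prod.map φ φ) with hA'
  have h3 : A'.toList.length ≤ m := by rw [length_toList]; exact card_image_le.trans hA
  refine ⟨fun i => A'.toList[i.1]?, Fintype.mem_piFinset.2 fun i => mem_insertNone.2 fun a ha => ?_,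
    ?_⟩
  · obtain ⟨b, hb, rfl⟩ := mem_image.1 (mem_toList.1 (List.mem_of_getElem? ha))
    exact mem_product.2 ⟨mem_range.2 (h2 _ (mem_union_left _ (mem_image_of_mem _ hb))),
      mem_range.2 (h2 _ (mem_union_right _ (mem_image_of_mem _ hb)))⟩
  · rw [← gam_map (A := A) φ (fun x hx => h1 x (mem_range.1 hx)) hT]
    congr 1
    ext a
    simp only [arcsOf, mem_eraseNone, mem_image, mem_univ, true_and]
    rw [← mem_image, ← mem_toList, List.mem_iff_getElem?]
    exact ⟨fun ⟨i, hi⟩ => ⟨i, hi⟩, fun ⟨i, hi⟩ =>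
      ⟨⟨i, lt_of_lt_of_le (List.getElem?_eq_some_iff.1 hi).1 h3⟩, hi⟩⟩

theorem mem_iff {r : ℕ} {B : Finset (ℕ × ℕ)} (hB : B ⊆ Ico r (2 * r) ×ˢ range r) {s t : ℕ}
    (hs : s ∈ Ico r (2 * r)) (ht : t ∈ range r) :
    insert s ((range r).erase t) ∈ Gam B (range r) (range (2 * r)) ↔ (s, t) ∈ B := by
  rw [mem_Ico] at hs
  rw [mem_range] at ht
  constructor
  · rintro ⟨-, R, h1, h2, h3⟩
    obtain ⟨p, hp, e⟩ := h3 s (mem_insert_self _ _)
    obtain ⟨⟨-, -, a3⟩, u, hu, a4⟩ := h1 p hp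
    match p, e with
    | [_], rfl =>
      have := mem_range.1 hu
      simp at a4
      omega
    | _ :: v :: l, rfl =>
      have h4 : (_, v) ∈ B := (List.isChain_cons_cons.1 a3).1
      have h5 := (mem_product.1 (hB h4)).2
      by_cases h6 : v = t
      · exact h6 ▸ h4
      · obtain ⟨q, hq, e'⟩ := h3 v (mem_insert_of_mem (mem_erase.2 ⟨h6, h5⟩))
        refine (h2 hp hq (fun h => ?_) (by simp) (List.mem_of_head? e')).elim
        rw [← h] at e'
        have := mem_range.1 h5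
        simp at e'
        omega
  · intro h
    refine ⟨fun x hx => ?_, {p | p = [s, t] ∨ ∃ u < r, u ≠ t ∧ p = [u]}, ?_, ?_, fun x hx => ?_⟩
    · simp only [mem_insert, mem_erase, mem_range] at hx ⊢
      omega
    · rintro _ (rfl | ⟨u, hu, -, rfl⟩)
      · exact ⟨⟨by simp, by simp; omega, by simpa using h⟩, t, mem_range.2 ht, rfl⟩
      · exact ⟨⟨by simp, by simp, by simp⟩, u, mem_range.2 hu, rfl⟩
    · rintro _ (rfl | ⟨u, hu, h1, rfl⟩) _ (rfl | ⟨v, hv, h2, rfl⟩) hne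
      · exact absurd rfl hne
      · simp; omega
      · simp; omega
      · simpa [eq_comm] using hne
    · simp only [mem_insert, mem_erase, mem_range] at hx
      rcases hx with rfl | hx
      · exact ⟨_, Or.inl rfl, rfl⟩
      · exact ⟨_, Or.inr ⟨x, hx.2, hx.1, rfl⟩, rfl⟩

theorem std_B {r j : ℕ} {B : Finset (ℕ × ℕ)} (hB : B ⊆ Ico r (2 * r) ×ˢ range r) :
    Std B (range r) (range (2 * r + j)) (Gam B (range r) (range (2 * r))) := by
  refine ⟨Set.ext fun X => ⟨fun ⟨_, h⟩ => ⟨fun x hx => ?_, h⟩,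
    fun ⟨h1, h⟩ => ⟨h1.trans (range_subset_range.2 (by omega)), h⟩⟩,
    range_subset_range.2 (by omega), fun a ha => ?_, fun a ha => ?_⟩
  · obtain ⟨R, h1, -, h3⟩ := h
    obtain ⟨p, hp, e⟩ := h3 x hx
    obtain ⟨⟨-, -, a3⟩, u, hu, a4⟩ := h1 p hp
    match p, e with
    | [_], rfl =>
      have := mem_range.1 hu
      simp at a4 ⊢
      omega
    | _ :: v :: l, rfl =>
      exact mem_range.2 (mem_Ico.1 (mem_product.1 (hB (List.isChain_cons_cons.1 a3).1)).1).2
  · have := mem_Ico.1 (mem_product.1 (hB ha)).1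
    simp
    omega
  · simp [(mem_product.1 (hB ha)).2]

theorem std_down {A : Finset (ℕ × ℕ)} {T E E' : Finset ℕ} {I : Set (Finset ℕ)} (h : Std A T E' I)
    (h1 : E ⊆ E') (h2 : ∀ X ∈ I, X ⊆ E) : Std A T E I := by
  obtain ⟨rfl, a2, a3, a4⟩ := h
  refine ⟨Set.ext fun X => ⟨fun h => ⟨h.1.trans h1, h.2⟩, fun h => ⟨h2 X h, h.2⟩⟩,
    fun t ht => h2 {t} ⟨singleton_subset_iff.2 (a2 ht), {[t]}, ?_, by simp, by simp⟩
      (mem_singleton_self t), a3, fun a ha h => a4 a ha (sdiff_subset_sdiff h1 subset_rfl h)⟩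
  rintro _ rfl
  exact ⟨⟨by simp, by simp, by simp⟩, t, ht, rfl⟩

theorem exists_big (r m : ℕ) (h : ((2 * r + 2 * m) ^ 2 + 1) ^ m * 2 ^ (2 * r) < 2 ^ (r * r)) :
    ∃ B ⊆ Ico r (2 * r) ×ˢ range r, m < arcC (range (2 * r)) (Gam B (range r) (range (2 * r))) := by
  by_contra! h1
  have h2 : ∀ B ∈ (Ico r (2 * r) ×ˢ range r).powerset,
      ∃ c ∈ (Fintype.piFinset fun _ : Fin m =>
        insertNone (range (2 * r + 2 * m) ×ˢ range (2 * r + 2 * m))) ×ˢ (range (2 * r)).powerset,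
      Gam (arcsOf c.1) c.2 (range (2 * r)) = Gam B (range r) (range (2 * r)) := by
    intro B hB
    rw [mem_powerset] at hB
    obtain ⟨A, T, h3, h4⟩ : arcC (range (2 * r)) (Gam B (range r) (range (2 * r))) ∈
        {m | ∃ A T, Std A T (range (2 * r)) (Gam B (range r) (range (2 * r))) ∧ #A = m} :=
      Nat.sInf_mem ⟨_, B, _, std_B (j := 0) hB, rfl⟩
    obtain ⟨g, h5, h6⟩ := small h3.2.1 (h4.trans_le (h1 B hB))
    exact ⟨(g, T), mem_product.2 ⟨h5, mem_powerset.2 h3.2.1⟩, h6.trans h3.1⟩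
  choose! c hc1 hc2 using h2
  have h3 := card_le_card_of_injOn c hc1 fun B hB B' hB' e => by
    have h4 := (hc2 B hB).symm.trans (e ▸ hc2 B' hB')
    have hB := mem_powerset.1 hB
    have hB' := mem_powerset.1 hB'
    ext ⟨s, t⟩
    refine ⟨fun h => ?_, fun h => ?_⟩
    · have h5 := mem_product.1 (hB h)
      rwa [← mem_iff hB' h5.1 h5.2, ← h4, mem_iff hB h5.1 h5.2]
    · have h5 := mem_product.1 (hB' h)
      rwa [← mem_iff hB h5.1 h5.2, h4, mem_iff hB' h5.1 h5.2]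
  simp only [card_powerset, card_product, Nat.card_Ico, card_range, Fintype.card_piFinset,
    card_insertNone, prod_const, card_univ, Fintype.card_fin] at h3
  rw [show 2 * r - r = r by omega, ← sq (2 * r + 2 * m)] at h3
  omega

theorem exists_r (k r₀ : ℕ) : ∃ r, r₀ ≤ r ∧ 1 ≤ r ∧
    ((2 * r + 2 * (2 * k * r)) ^ 2 + 1) ^ (2 * k * r) * 2 ^ (2 * r) < 2 ^ (r * r) := by
  set c := ((2 + 4 * k) ^ 2 + 1) ^ (2 * k) * 4 with hc
  have h1 := (isLittleO_pow_const_const_pow_of_one_lt (R := ℝ) (4 * k)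
    (show (1 : ℝ) < 2 by norm_num)).const_mul_left (c : ℝ)
  obtain ⟨r, h2, h3, h4⟩ := ((h1.def (c := 1 / 2) (by norm_num)).and
    ((Filter.eventually_ge_atTop r₀).and (Filter.eventually_ge_atTop 1))).exists
  refine ⟨r, h3, h4, ?_⟩
  have h5 : c * r ^ (4 * k) < 2 ^ r := by
    have h6 : (0 : ℝ) < 2 ^ r := by positivity
    rw [Real.norm_of_nonneg (by positivity), Real.norm_of_nonneg h6.le] at h2
    have h7 : (c : ℝ) * r ^ (4 * k) < 2 ^ r := by linarith
    exact_mod_cast h7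
  have h6 : (2 * r + 2 * (2 * k * r)) ^ 2 + 1 ≤ ((2 + 4 * k) ^ 2 + 1) * r ^ 2 := by nlinarith
  calc _ ≤ (((2 + 4 * k) ^ 2 + 1) * r ^ 2) ^ (2 * k * r) * 2 ^ (2 * r) := by gcongr
    _ = (c * r ^ (4 * k)) ^ r := by
      rw [hc, pow_mul _ (2 * k), pow_mul 2 2, ← mul_pow, mul_pow _ (r ^ 2), ← pow_mul r]
      congr 1
      rw [show 2 * (2 * k) = 4 * k by ring]
      ring
    _ < (2 ^ r) ^ r := Nat.pow_lt_pow_left h5 (by omega)
    _ = _ := by rw [← pow_mul]

theorem result (a b : ℝ) (ha : 0 < a) (hab : a < b) : ∃ x ∈ S, a < x ∧ x < b := by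
  obtain ⟨k, hk⟩ := exists_nat_ge b
  obtain ⟨r₀, hr₀⟩ := exists_nat_gt (a / (b - a))
  obtain ⟨r, h1, h2, h3⟩ := exists_r k r₀
  obtain ⟨B, hB, h4⟩ := exists_big r (2 * k * r) h3
  set I := Gam B (range r) (range (2 * r)) with hI
  have up : ∀ j, arcC (range (2 * r + j)) I ≤ #B := fun j =>
    Nat.sInf_le (s := {m | ∃ A T, Std A T (range (2 * r + j)) I ∧ #A = m}) ⟨B, _, std_B hB, rfl⟩
  have mono : ∀ j, arcC (range (2 * r + j)) I ≤ arcC (range (2 * r + (j + 1))) I := fun j => by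
    obtain ⟨A, T, h5, h6⟩ : arcC (range (2 * r + (j + 1))) I ∈
        {m | ∃ A T, Std A T (range (2 * r + (j + 1))) I ∧ #A = m} :=
      Nat.sInf_mem ⟨_, B, _, std_B hB, rfl⟩
    exact Nat.sInf_le (s := {m | ∃ A T, Std A T (range (2 * r + j)) I ∧ #A = m})
      ⟨A, T, std_down h5 (range_subset_range.2 (by omega))
        fun X hX => hX.1.trans (range_subset_range.2 (by omega)), h6⟩
  have hb : 0 < b := ha.trans hab
  have hr : (1 : ℝ) ≤ r := by exact_mod_cast h2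
  have ex : ∃ j : ℕ, (arcC (range (2 * r + j)) I : ℝ) < b * (2 * r + j) := by
    obtain ⟨j, hj⟩ := exists_nat_gt ((#B : ℝ) / b)
    have h5 : (arcC (range (2 * r + j)) I : ℝ) ≤ #B := by exact_mod_cast up j
    rw [div_lt_iff₀ hb] at hj
    exact ⟨j, by nlinarith⟩
  have h5 := Nat.find_spec ex
  cases hj : Nat.find ex with
  | zero =>
    rw [hj] at h5
    have h6 : ((2 * k * r : ℕ) : ℝ) < arcC (range (2 * r + 0)) I := by exact_mod_cast h4
    push_cast at h5 h6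
    nlinarith
  | succ j =>
    have h6 := Nat.find_min ex (show j < Nat.find ex by omega)
    rw [hj] at h5
    have h7 : (arcC (range (2 * r + j)) I : ℝ) ≤ arcC (range (2 * r + (j + 1))) I := by
      exact_mod_cast mono j
    have h8 : (0 : ℝ) < #(range (2 * r + (j + 1))) := by simp; positivity
    refine ⟨_, ⟨range (2 * r + (j + 1)), I, by simp, ⟨B, _, (std_B hB).1⟩, rfl⟩, ?_, ?_⟩
    · rw [lt_div_iff₀ h8, card_range]
      have h9 : (r₀ : ℝ) ≤ r := by exact_mod_cast h1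
      rw [div_lt_iff₀ (sub_pos.2 hab)] at hr₀
      have h10 : (0 : ℝ) ≤ j := Nat.cast_nonneg j
      push_cast at h6 ⊢
      nlinarith [mul_nonneg (sub_pos.2 hab).le h10, mul_le_mul_of_nonneg_left h9 (sub_pos.2 hab).le]
    · rw [div_lt_iff₀ h8, card_range]
      push_cast at h5 ⊢
      exact h5

end Pool.Agent.Results.MP_1bde1f_co.Dense
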